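import Pool.Agent.Helper99.ZZ.Zig

/-!
# Packet ZF: the leg before the first extremum
-/

namespace Pool.Agent.Helper38.ZZ

open Finset
open Pool.Agent.Helper99.ZZ

/-- The last time of the minimum on `[a, b]`. -/
theorem last_argmin (f : ℕ → ℤ) (a : ℕ) : ∀ d : ℕ, ∃ m, a ≤ m ∧ m ≤ a + d ∧
    (∀ u, a ≤ u → u ≤ a + d → f m ≤ f u) ∧ ∀ u, m < u → u ≤ a + d → f m < f u
  | 0 => ⟨a, le_rfl, le_rfl, fun u h1 h2 => by
      have : u = a := by omega
      rw [this], fun u h1 h2 => by omega⟩
  | d + 1 => by
      obtain ⟨m, h1, h2, h3, h4⟩ := last_argmin f a d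
      rcases le_or_gt (f (a + (d + 1))) (f m) with h | h
      · refine ⟨a + (d + 1), by omega, le_rfl, fun u hu hu' => ?_, fun u hu hu' => by omega⟩
        rcases Nat.lt_or_ge u (a + (d + 1)) with h5 | h5
        · exact h.trans (h3 u hu (by omega))
        · have : u = a + (d + 1) := by omega
          rw [this]
      · refine ⟨m, h1, by omega, fun u hu hu' => ?_, fun u hu hu' => ?_⟩
        · rcases Nat.lt_or_ge u (a + (d + 1)) with h5 | h5
          · exact h3 u hu (by omega)
          · have : u = a + (d + 1) := by omega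
            rw [this]; exact h.le
        · rcases Nat.lt_or_ge u (a + (d + 1)) with h5 | h5
          · exact h4 u hu (by omega)
          · have : u = a + (d + 1) := by omega
            rw [this]; exact h

/-- `ZF`. -/
theorem ZF : ZF_stmt := by
  classical
  intro h n t z ht hz hno
  obtain ⟨s, s', hs1, hs2, hs3, hs4, hs5, hs6, hs7⟩ := hz
  simp only at hs4 hs5 hs6 hs7
  obtain ⟨m, hm1, hm2, hm3, hm4⟩ := last_argmin h 0 z
  rw [Nat.zero_add] at hm2 hm3 hm4
  have e1 : h m ≤ h s := hm3 s (Nat.zero_le _) hs1.le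
  have e2 : h m + t ≤ h z := by omega
  have hmz : m < z := by
    rcases Nat.lt_or_ge m z with h1 | h1
    · exact h1
    · have : m = z := by omega
      rw [this] at e2; omega
  have nodrop : ∀ u u', m ≤ u → u ≤ u' → u' ≤ z → h u - h u' < t := by
    intro u u' h1 h2 h3
    by_contra hc
    obtain ⟨y, y1, y2, y3, y4⟩ := last_argmin (fun v => - h v) m (u' - m)
    have e : m + (u' - m) = u' := by omega
    rw [e] at y2 y3 y4
    have y5 := y3 u h1 h2
    have y6 := y3 u' (h1.trans h2) le_rfl
    have y7 := hm3 u' (Nat.zero_le _) h3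
    have hyu : y < u' := by
      rcases Nat.lt_or_ge y u' with h5 | h5
      · exact h5
      · have : y = u' := by omega
        rw [this] at y5; omega
    have hmy : m < y := by
      rcases Nat.lt_or_ge m y with h5 | h5
      · exact h5
      · have : y = m := by omega
        rw [this] at y5; omega
    refine hno y (by omega) ?_
    rw [TS, mem_filter, mem_range]
    refine ⟨by omega, Or.inr ⟨m, u', hmy, hyu, by omega, ?_, ?_, ?_, ?_⟩⟩
    · simp only; omega
    · simp only; omega
    · intro v v1 v2
      exact y3 v v1 (by omega)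
    · intro v v1 v2
      exact y4 v v1 (by omega)
  refine ⟨m, ⟨hmz, fun u u1 u2 => hm4 u u1 u2, fun u u1 u2 => ?_, e2, nodrop⟩, fun u hu => ⟨hm3 u (Nat.zero_le _) (by omega), ?_⟩⟩
  · rcases Nat.lt_or_ge u s with h5 | h5
    · have h6 := nodrop u s u1 h5.le hs1.le
      omega
    · have h6 := hs6 u h5 u2
      omega
  · by_contra hc
    have hum : u < m := by
      rcases Nat.lt_or_ge u m with h5 | h5
      · exact h5
      · have : u = m := by omega
        rw [this] at hc; omega
    refine hno m hmz ?_
    rw [TS, mem_filter, mem_range]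
    exact ⟨by omega, Or.inl ⟨u, z, hum, hmz, by omega, by omega, e2,
      fun v _ v2 => hm3 v (Nat.zero_le _) (by omega), fun v v1 v2 => hm4 v v1 v2⟩⟩

end Pool.Agent.Helper38.ZZ
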